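import Mathlib
import Pool.Agent.Y877.RecB
import Pool.Agent.H312R2.RG.C3a

/-! Bounded combinations of two early prime gaps fill all multiples of a fixed number up to the record
scale (helper127). -/

set_option autoImplicit false

namespace Pool.Agent.Q127.Basis

open Finset Filter
open Pool.Agent.Y877 (Consec gapCount Linked)
open Pool.Agent.H256R2.SC (ff)

theorem linked_pair {α : Type} {S : Finset α} {R : α → α → Prop} (h : Linked S R) (hS : 1 < S.card) :
    ∃ i j, i ≠ j ∧ R i j := by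
  obtain ⟨i, hi, j, hj, hij⟩ := Finset.one_lt_card.1 hS
  by_contra hcon
  push Not at hcon
  have key : ∀ z, Relation.ReflTransGen (fun x y => x ∈ S ∧ y ∈ S ∧ R x y) i z → z = i := by
    intro z hz
    induction hz with
    | refl => rfl
    | @tail b c _ h2 ih =>
      subst ih
      by_contra hne
      exact hcon _ _ (Ne.symm hne) h2.2.2
  exact hij (key j (h i hi j hj)).symm

/-- `T! * d` times `0, ..., T - 1` is admissible -/
theorem adm_fact (T d : ℕ) (p : ℕ) (hp : p.Prime) :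
    ∃ r : ℤ, ∀ i : Fin T, ¬ (p : ℤ) ∣ ((T.factorial * d : ℕ) : ℤ) * ((i : ℕ) : ℤ) + r := by
  by_cases hpT : p ≤ T
  · refine ⟨1, fun i h => ?_⟩
    have h1 : (p : ℤ) ∣ ((T.factorial * d : ℕ) : ℤ) * ((i : ℕ) : ℤ) := by
      have h2 : (p : ℤ) ∣ ((T.factorial * d : ℕ) : ℤ) := by
        exact_mod_cast Dvd.dvd.mul_right ((hp.dvd_factorial).2 hpT) d
      exact h2.mul_right _
    have h3 : (p : ℤ) ∣ 1 := by
      have := dvd_sub h h1
      rwa [add_sub_cancel_left] at this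
    exact (Nat.prime_iff_prime_int.1 hp).not_isUnit (isUnit_of_dvd_one h3)
  · push Not at hpT
    obtain ⟨r, hr⟩ := Pool.Agent.Y877.exresA p
      ((univ : Finset (Fin T)).image (fun i : Fin T => ((T.factorial * d : ℕ) : ℤ) * ((i : ℕ) : ℤ)))
      (by
        refine card_image_le.trans_lt ?_
        rw [card_univ, Fintype.card_fin]
        exact hpT)
    refine ⟨r, fun i h => hr _ (mem_image.2 ⟨i, mem_univ _, rfl⟩) ?_⟩
    rwa [add_comm]

/-- two members of a dense subset of a symmetric window with a given sum -/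
theorem two_sum (G : Finset ℕ) (u H κ : ℕ) (hG : G ⊆ Ioc u (u + H)) (hκ : κ = 2 * u + H + 1)
    (hcard : H < 2 * G.card) : ∃ k₁ ∈ G, ∃ k₂ ∈ G, k₁ + k₂ = κ := by
  by_contra hcon
  push Not at hcon
  have h1 : Disjoint G (G.image (fun k => κ - k)) := by
    rw [disjoint_left]
    intro k hk hk'
    obtain ⟨k', hk1, hk2⟩ := mem_image.1 hk'
    have h2 := mem_Ioc.1 (hG hk1)
    exact hcon k hk k' hk1 (by omega)
  have h2 : (G.image (fun k => κ - k)).card = G.card := by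
    refine card_image_of_injOn ?_
    intro a ha b hb hab
    have h3 := mem_Ioc.1 (hG ha)
    have h4 := mem_Ioc.1 (hG hb)
    simp only at hab
    omega
  have h3 : G ∪ G.image (fun k => κ - k) ⊆ Ioc u (u + H) := by
    refine union_subset hG ?_
    intro k hk
    obtain ⟨k', hk1, hk2⟩ := mem_image.1 hk
    have h2 := mem_Ioc.1 (hG hk1)
    rw [mem_Ioc]
    omega
  have h4 := card_le_card h3
  rw [card_union_of_disjoint h1, h2, Nat.card_Ioc] at h4
  omega

/-- Every multiple of `M d` up to the record scale is a combination `q₁ g₁ + q₂ g₂` of two gaps in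
`(X, 4 X]` behind primes `≡ a (mod d)`, with bounded coefficients. -/
theorem core : ∃ M Q : ℕ, 0 < M ∧ Even M ∧ ∀ d : ℕ, Squarefree d → ∃ C : ℕ, 0 < C ∧ ∀ᶠ X : ℝ in atTop,
    ∀ a : ℕ, a.Coprime d → ∀ κ : ℕ, C ≤ κ → ((C * κ : ℕ) : ℝ) ≤ ff X →
    ∃ q₁ q₂ g₁ g₂ : ℕ, 1 ≤ q₁ ∧ q₁ ≤ Q ∧ 1 ≤ q₂ ∧ q₂ ≤ Q ∧ q₁ * g₁ + q₂ * g₂ = M * d * κ ∧
      κ ≤ 4 * g₁ ∧ κ ≤ 4 * g₂ ∧ X ^ (6 / 7 : ℝ) ≤ gapCount X d a g₁ ∧
      X ^ (6 / 7 : ℝ) ≤ gapCount X d a g₂ := by
  classical
  obtain ⟨η, hη, hall⟩ := Pool.Agent.Y877.recAll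
  obtain ⟨T₀, hT₀⟩ := exists_nat_gt (1 / η)
  obtain ⟨T, hT⟩ : ∃ T, T = T₀ + 2 := ⟨_, rfl⟩
  have hTη : 1 < η * T := by
    have h1 : 1 / η < T := by
      rw [hT]; push_cast; linarith
    rw [div_lt_iff₀ hη] at h1
    linarith
  have hev : Even T.factorial := by
    have h2 : 2 ∣ T.factorial := (Nat.prime_two.dvd_factorial).2 (by omega)
    exact even_iff_two_dvd.2 h2
  refine ⟨T.factorial * T.factorial, T.factorial, Nat.mul_pos (Nat.factorial_pos _) (Nat.factorial_pos _),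
    hev.mul_right _, fun d hd => ?_⟩
  obtain ⟨C, hC⟩ := hall T (by omega) (fun i => (i : ℕ)) Fin.val_injective (1 / 4) (by norm_num) d hd
  have hd0 : 0 < d := Nat.pos_of_ne_zero hd.ne_zero
  refine ⟨C * (T.factorial * d) + 4 * C + 16, by omega, ?_⟩
  filter_upwards [hC] with X hX a ha κ hκ hκX
  obtain ⟨u, hu⟩ : ∃ u, u = κ / 4 := ⟨_, rfl⟩
  obtain ⟨H, hH⟩ : ∃ H, H = κ - 2 * u - 1 := ⟨_, rfl⟩
  have hκ16 : 16 ≤ κ := by omega
  have hκC : 4 * C + 16 ≤ κ := by omega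
  have hκH : κ = 2 * u + H + 1 := by omega
  have hCH : C ≤ H := by omega
  have hb : 1 ≤ T.factorial * d := Nat.mul_pos (Nat.factorial_pos _) hd0
  have hle : C * (T.factorial * d * (u + H)) ≤ (C * (T.factorial * d) + 4 * C + 16) * κ := by
    have h1 : u + H ≤ κ := by omega
    calc C * (T.factorial * d * (u + H)) = C * (T.factorial * d) * (u + H) := by ring
      _ ≤ (C * (T.factorial * d) + 4 * C + 16) * κ := Nat.mul_le_mul (by omega) h1
  have h := hX a (T.factorial * d) ha hb (Dvd.intro_left _ rfl) (fun p hp => adm_fact T d p hp) u H hCH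
    (le_trans (by exact_mod_cast hle) hκX)
  obtain ⟨G, hG⟩ : ∃ G, G = (Ioc u (u + H)).filter (fun k : ℕ => ∃ S : Finset (Fin T), η * T ≤ S.card ∧
      Linked S (fun i j => X ^ (6 / 7 : ℝ) ≤
        gapCount X d a (T.factorial * d * (Nat.dist (i : ℕ) (j : ℕ) * k)))) := ⟨_, rfl⟩
  have h' : (1 - 1 / 4) * (H : ℝ) ≤ (G.card : ℝ) := by
    rw [hG]
    exact h
  have hH7 : 7 ≤ H := by omega
  have hGc : H < 2 * G.card := by
    have h1 : (0 : ℝ) < H := by exact_mod_cast (by omega : 0 < H)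
    have h2 : (H : ℝ) < 2 * G.card := by linarith
    exact_mod_cast h2
  obtain ⟨k₁, hk₁, k₂, hk₂, hsum⟩ := two_sum G u H κ (by rw [hG]; exact filter_subset _ _) hκH hGc
  have key : ∀ k ∈ G, ∃ q g : ℕ, 1 ≤ q ∧ q ≤ T.factorial ∧
      q * g = T.factorial * T.factorial * d * k ∧ κ ≤ 4 * g ∧
      X ^ (6 / 7 : ℝ) ≤ gapCount X d a g := by
    intro k hk
    rw [hG, mem_filter, mem_Ioc] at hk
    obtain ⟨⟨hk1, hk2⟩, S, hS1, hS2⟩ := hk
    have hS3 : 1 < S.card := by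
      have : (1 : ℝ) < S.card := hTη.trans_le hS1
      exact_mod_cast this
    obtain ⟨i, j, hij, hR⟩ := linked_pair hS2 hS3
    obtain ⟨δ, hδ⟩ : ∃ δ, δ = Nat.dist (i : ℕ) (j : ℕ) := ⟨_, rfl⟩
    have hδ0 : 0 < δ := by
      rw [hδ]
      refine Nat.dist_pos_of_ne ?_
      intro h
      exact hij (Fin.ext h)
    have hδT : δ ≤ T := by
      rw [hδ]
      have hi := i.isLt
      have hj := j.isLt
      unfold Nat.dist
      omega
    have hdvd : δ ∣ T.factorial := Nat.dvd_factorial hδ0 hδT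
    rw [← hδ] at hR
    refine ⟨T.factorial / δ, T.factorial * d * (δ * k), Nat.div_pos (Nat.le_of_dvd (Nat.factorial_pos _) hdvd) hδ0,
      Nat.div_le_self _ _, ?_, ?_, hR⟩
    · calc T.factorial / δ * (T.factorial * d * (δ * k)) = T.factorial / δ * δ * (T.factorial * d * k) := by ring
        _ = T.factorial * (T.factorial * d * k) := by rw [Nat.div_mul_cancel hdvd]
        _ = T.factorial * T.factorial * d * k := by ring
    · have h1 : k ≤ T.factorial * d * (δ * k) := by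
        calc k = 1 * (1 * k) := by ring
          _ ≤ T.factorial * d * (δ * k) := Nat.mul_le_mul hb (Nat.mul_le_mul hδ0 le_rfl)
      omega
  obtain ⟨q₁, g₁, a1, a2, a3, a4, a5⟩ := key k₁ hk₁
  obtain ⟨q₂, g₂, b1, b2, b3, b4, b5⟩ := key k₂ hk₂
  refine ⟨q₁, q₂, g₁, g₂, a1, a2, b1, b2, ?_, a4, b4, a5, b5⟩
  rw [a3, b3, ← hsum]
  ring

end Pool.Agent.Q127.Basis
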