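import Mathlib
import Pool.Agent.Q127.Basis.Core

/-! The version with the indices of the gaps (helper127). -/

set_option autoImplicit false

namespace Pool.Agent.Q127.Basis

open Finset Filter Topology
open Pool.Agent.Y877 (Consec gapCount Linked)
open Pool.Agent.H256R2.SC (ff)

/-- the gap behind the prime with index `n` (beginning with `0`) -/
noncomputable def gap (n : ℕ) : ℕ := Nat.nth Nat.Prime (n + 1) - Nat.nth Nat.Prime n

/-- the number of `n < N` for which the gap is `g` -/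
noncomputable def occ (N g : ℕ) : ℕ := {n : ℕ | n < N ∧ gap n = g}.ncard

theorem gap_of_consec {p g : ℕ} (hg : 0 < g) (h : Consec p g) :
    gap (Nat.count Nat.Prime p) = g ∧ Nat.nth Nat.Prime (Nat.count Nat.Prime p) = p := by
  obtain ⟨hp, hq, h⟩ := h
  have e1 : Nat.nth Nat.Prime (Nat.count Nat.Prime p) = p := Nat.nth_count hp
  refine ⟨?_, e1⟩
  unfold gap
  rw [e1]
  have h1 : Nat.count Nat.Prime p < Nat.count Nat.Prime (p + g) := Nat.count_strict_mono hp (by omega)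
  have h2 : Nat.nth Nat.Prime (Nat.count Nat.Prime (p + g)) = p + g := Nat.nth_count hq
  have hinf := Nat.infinite_setOfPred_prime
  by_contra hne
  have h3 : Nat.count Nat.Prime p + 1 < Nat.count Nat.Prime (p + g) := by
    rcases Nat.lt_or_ge (Nat.count Nat.Prime p + 1) (Nat.count Nat.Prime (p + g)) with h4 | h4
    · exact h4
    · exfalso
      have h5 : Nat.count Nat.Prime (p + g) = Nat.count Nat.Prime p + 1 := by omega
      rw [h5] at h2
      apply hne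
      rw [h2]
      omega
  have h4 := Nat.nth_strictMono hinf h3
  have h5 := Nat.nth_strictMono hinf (Nat.lt_succ_self (Nat.count Nat.Prime p))
  rw [h2] at h4
  rw [e1] at h5
  exact h _ h5 h4 (Nat.prime_nth_prime _)

theorem gapCount_le (N g : ℕ) (hg : 0 < g) : gapCount ((N : ℝ) / 4) 1 1 g ≤ occ N g := by
  unfold gapCount occ
  have hfin : {n : ℕ | n < N ∧ gap n = g}.Finite := (Set.finite_lt_nat N).subset (fun n hn => hn.1)
  refine Set.ncard_le_ncard_of_injOn (fun p => Nat.count Nat.Prime p) ?_ ?_ hfin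
  · rintro p ⟨h1, h2, -, h4⟩
    obtain ⟨e1, e2⟩ := gap_of_consec hg h4
    refine ⟨?_, e1⟩
    have h5 : (p : ℝ) ≤ N := by linarith
    have h6 : p ≤ N := by exact_mod_cast h5
    have h7 : Nat.count Nat.Prime p < p := by
      have h8 := Nat.add_two_le_nth_prime (Nat.count Nat.Prime p)
      rw [e2] at h8
      omega
    show Nat.count Nat.Prime p < N
    omega
  · rintro p ⟨-, -, -, h4⟩ q ⟨-, -, -, h5⟩ hpq
    have e1 := (gap_of_consec hg h4).2
    have e2 := (gap_of_consec hg h5).2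
    simp only at hpq
    rw [← e1, hpq, e2]

theorem index_version : ∃ Q : ℕ, ∃ c : ℝ, 0 < c ∧ ∀ᶠ N : ℕ in atTop, ∀ t : ℕ, Even t →
    (t : ℝ) ≤ c * ff N → ∃ q₀ q₁ q₂ g₁ g₂ : ℕ, q₀ ≤ Q ∧ q₁ ≤ Q ∧ q₂ ≤ Q ∧
      t = q₀ * 2 + q₁ * g₁ + q₂ * g₂ ∧ (N : ℝ) ^ (4 / 5 : ℝ) ≤ occ N g₁ ∧
      (N : ℝ) ^ (4 / 5 : ℝ) ≤ occ N g₂ := by
  obtain ⟨M, Q, hM, hMe, h⟩ := core
  obtain ⟨C, hC, h⟩ := h 1 squarefree_one
  have hCr : (0 : ℝ) < C := by exact_mod_cast hC
  refine ⟨Q + M * (C + 1), 1 / (2 * C), by positivity, ?_⟩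
  have tN : Tendsto (fun N : ℕ => (N : ℝ)) atTop atTop := tendsto_natCast_atTop_atTop
  have tN4 : Tendsto (fun N : ℕ => (N : ℝ) / 4) atTop atTop := tN.atTop_div_const (by norm_num)
  have hpow : ∀ᶠ N : ℕ in atTop, (N : ℝ) ^ (4 / 5 : ℝ) ≤ ((N : ℝ) / 4) ^ (6 / 7 : ℝ) := by
    filter_upwards [((tendsto_rpow_atTop (by norm_num : (0 : ℝ) < 2 / 35)).comp tN).eventually_ge_atTop 4,
      eventually_gt_atTop 0] with N h1 h2
    have hN : (0 : ℝ) < N := by exact_mod_cast h2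
    have h3 : (4 : ℝ) ^ (6 / 7 : ℝ) ≤ 4 := by
      calc (4 : ℝ) ^ (6 / 7 : ℝ) ≤ (4 : ℝ) ^ (1 : ℝ) := Real.rpow_le_rpow_of_exponent_le (by norm_num) (by norm_num)
        _ = 4 := Real.rpow_one 4
    rw [Real.div_rpow hN.le (by norm_num), le_div_iff₀ (by positivity)]
    calc (N : ℝ) ^ (4 / 5 : ℝ) * 4 ^ (6 / 7 : ℝ) ≤ (N : ℝ) ^ (4 / 5 : ℝ) * (N : ℝ) ^ (2 / 35 : ℝ) := by
          refine mul_le_mul_of_nonneg_left (h3.trans h1) (Real.rpow_nonneg hN.le _)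
      _ = (N : ℝ) ^ (6 / 7 : ℝ) := by
          rw [← Real.rpow_add hN]
          norm_num
  filter_upwards [tN4.eventually h, tN4.eventually (Pool.Agent.H312R2.RG.C3.ff_slow (1 / 2) (by norm_num)),
    tN4.eventually_ge_atTop 1, tN.eventually (Pool.Agent.H312R2.RG.C3.ff_tendsto.eventually_ge_atTop 1),
    tN4.eventually (Pool.Agent.H312R2.RG.C3.ff_tendsto.eventually_ge_atTop ((C * C : ℕ) : ℝ)), hpow]
    with N hN hslow hN4 hffN hffX hpowN t ht htN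
  have hX0 : (0 : ℝ) ≤ (N : ℝ) / 4 := by linarith
  have hff : ff N ≤ 2 * ff ((N : ℝ) / 4) := by
    have h1 := hslow N (by linarith) (by linarith)
    rw [abs_lt] at h1
    have h2 : 1 / 2 < ff ((N : ℝ) / 4) / ff N := by linarith
    rw [lt_div_iff₀ (by linarith)] at h2
    linarith
  have hgood : ∀ κ : ℕ, C ≤ κ → ((C * κ : ℕ) : ℝ) ≤ ff ((N : ℝ) / 4) →
      ∃ q₁ q₂ g₁ g₂ : ℕ, q₁ ≤ Q ∧ q₂ ≤ Q ∧ q₁ * g₁ + q₂ * g₂ = M * κ ∧
      (N : ℝ) ^ (4 / 5 : ℝ) ≤ occ N g₁ ∧ (N : ℝ) ^ (4 / 5 : ℝ) ≤ occ N g₂ := by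
    intro κ hκ1 hκ2
    obtain ⟨q₁, q₂, g₁, g₂, -, a2, -, a4, a5, a6, a7, a8, a9⟩ := hN 1 (Nat.coprime_one_right 1) κ hκ1 hκ2
    rw [mul_one] at a5
    refine ⟨q₁, q₂, g₁, g₂, a2, a4, a5, ?_, ?_⟩
    · have h1 : ((gapCount ((N : ℝ) / 4) 1 1 g₁ : ℕ) : ℝ) ≤ occ N g₁ := by
        exact_mod_cast gapCount_le N g₁ (by omega)
      linarith
    · have h1 : ((gapCount ((N : ℝ) / 4) 1 1 g₂ : ℕ) : ℝ) ≤ occ N g₂ := by
        exact_mod_cast gapCount_le N g₂ (by omega)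
      linarith
  have hdm := Nat.div_add_mod t M
  have hmod : t % M < M := Nat.mod_lt t hM
  rcases Nat.lt_or_ge (t / M) C with hlt | hge
  · obtain ⟨q₁, q₂, g₁, g₂, -, -, -, a4, a5⟩ := hgood C le_rfl hffX
    obtain ⟨m, hm⟩ := ht
    refine ⟨m, 0, 0, g₁, g₂, ?_, Nat.zero_le _, Nat.zero_le _, by omega, a4, a5⟩
    have h1 : t < C * M := (Nat.div_lt_iff_lt_mul hM).1 hlt
    have h2 : M * (C + 1) = C * M + M := by ring
    omega
  · have h1 : ((C * (t / M) : ℕ) : ℝ) ≤ ff ((N : ℝ) / 4) := by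
      have h2 : ((C * (t / M) : ℕ) : ℝ) ≤ C * t := by
        push_cast
        refine mul_le_mul_of_nonneg_left ?_ hCr.le
        exact_mod_cast Nat.div_le_self t M
      have h3 : (C : ℝ) * t ≤ C * (1 / (2 * C) * ff N) := mul_le_mul_of_nonneg_left htN hCr.le
      have h4 : (C : ℝ) * (1 / (2 * C) * ff N) = ff N / 2 := by
        field_simp
      linarith
    obtain ⟨q₁, q₂, g₁, g₂, a1, a2, a3, a4, a5⟩ := hgood (t / M) hge h1
    obtain ⟨m, hm⟩ := ht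
    obtain ⟨m', hm'⟩ := hMe
    have h5 : M * (t / M) = 2 * (m' * (t / M)) := by
      rw [hm']; ring
    refine ⟨(t % M) / 2, q₁, q₂, g₁, g₂, ?_, by omega, by omega, by omega, a4, a5⟩
    have h6 : M * (C + 1) = M * C + M := by ring
    omega

end Pool.Agent.Q127.Basis
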