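import Mathlib
import Pool.Agent.Q127.Basis.Index

/-! The least even number which is not a sum of boundedly many early gaps (helper127). -/

set_option autoImplicit false

namespace Pool.Agent.Q127.Basis

open Finset Filter Topology
open Pool.Agent.H256R2.SC (ff)

/-- the least positive even integer which is not a sum of at most `s` of the first `N` gaps -/
noncomputable def least (s N : ℕ) : ℕ :=
  sInf {t : ℕ | 0 < t ∧ Even t ∧ ∀ l : List ℕ, l.length ≤ s → (∀ n ∈ l, n < N) → (l.map gap).sum ≠ t}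

theorem gap_one : gap 1 = 2 := by
  unfold gap
  rw [Nat.nth_prime_one_eq_three, show 1 + 1 = 2 from rfl, Nat.nth_prime_two_eq_five]

theorem sum_le (N s : ℕ) (l : List ℕ) (hl : l.length ≤ s) (h : ∀ n ∈ l, n < N) :
    (l.map gap).sum ≤ s * Nat.nth Nat.Prime N := by
  have h1 : (l.map gap).sum ≤ (l.map gap).length * Nat.nth Nat.Prime N := by
    rw [← smul_eq_mul]
    refine List.sum_le_card_nsmul _ _ ?_
    intro x hx
    obtain ⟨n, hn, rfl⟩ := List.mem_map.1 hx
    have h2 : Nat.nth Nat.Prime (n + 1) ≤ Nat.nth Nat.Prime N :=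
      (Nat.nth_strictMono Nat.infinite_setOfPred_prime).monotone (h n hn)
    unfold gap
    omega
  rw [List.length_map] at h1
  exact h1.trans (Nat.mul_le_mul_right _ hl)

theorem least_mem (s N : ℕ) : 0 < least s N ∧ Even (least s N) ∧
    ∀ l : List ℕ, l.length ≤ s → (∀ n ∈ l, n < N) → (l.map gap).sum ≠ least s N := by
  have hne : {t : ℕ | 0 < t ∧ Even t ∧ ∀ l : List ℕ, l.length ≤ s → (∀ n ∈ l, n < N) →
      (l.map gap).sum ≠ t}.Nonempty := by
    refine ⟨2 * (s * Nat.nth Nat.Prime N + 1), by omega, even_two_mul _, ?_⟩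
    intro l hl h hsum
    have := sum_le N s l hl h
    omega
  exact Nat.sInf_mem hne

theorem exists_index {N g : ℕ} (h : 0 < occ N g) : ∃ n, n < N ∧ gap n = g := by
  unfold occ at h
  obtain ⟨n, hn⟩ := Set.nonempty_of_ncard_ne_zero h.ne'
  exact ⟨n, hn⟩

theorem least_ge : ∃ s : ℕ, ∃ c : ℝ, 0 < c ∧ ∀ᶠ N : ℕ in atTop, c * ff N ≤ least s N := by
  obtain ⟨Q, c, hc, h⟩ := index_version
  refine ⟨3 * Q, c, hc, ?_⟩
  filter_upwards [h, eventually_ge_atTop 2] with N hN hN2
  by_contra hcon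
  push Not at hcon
  obtain ⟨h1, h2, h3⟩ := least_mem (3 * Q) N
  obtain ⟨q₀, q₁, q₂, g₁, g₂, a0, a1, a2, a3, a4, a5⟩ := hN _ h2 hcon.le
  have hpos : (0 : ℝ) < (N : ℝ) ^ (4 / 5 : ℝ) := by
    refine Real.rpow_pos_of_pos ?_ _
    exact_mod_cast (by omega : 0 < N)
  obtain ⟨n₁, b1, b2⟩ := exists_index (N := N) (g := g₁) (by exact_mod_cast hpos.trans_le a4)
  obtain ⟨n₂, b3, b4⟩ := exists_index (N := N) (g := g₂) (by exact_mod_cast hpos.trans_le a5)
  refine h3 (List.replicate q₀ 1 ++ (List.replicate q₁ n₁ ++ List.replicate q₂ n₂)) ?_ ?_ ?_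
  · simp only [List.length_append, List.length_replicate]
    omega
  · intro n hn
    rw [List.mem_append, List.mem_append] at hn
    rcases hn with hn | hn | hn
    · rw [List.eq_of_mem_replicate hn]; omega
    · rw [List.eq_of_mem_replicate hn]; exact b1
    · rw [List.eq_of_mem_replicate hn]; exact b3
  · rw [List.map_append, List.map_append, List.map_replicate, List.map_replicate, List.map_replicate,
      List.sum_append, List.sum_append, List.sum_replicate, List.sum_replicate, List.sum_replicate,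
      gap_one, b2, b4, smul_eq_mul, smul_eq_mul, smul_eq_mul, a3]
    ring

theorem least_tendsto : ∃ s : ℕ, (∃ c : ℝ, 0 < c ∧ ∀ᶠ N : ℕ in atTop, c * ff N ≤ least s N) ∧
    Tendsto (fun N : ℕ => (least s N : ℝ) / Real.log N) atTop atTop := by
  obtain ⟨s, c, hc, h⟩ := least_ge
  refine ⟨s, ⟨c, hc, h⟩, ?_⟩
  have tN : Tendsto (fun N : ℕ => (N : ℝ)) atTop atTop := tendsto_natCast_atTop_atTop
  have t1 : Tendsto (fun N : ℕ => Real.log (N : ℝ)) atTop atTop := Real.tendsto_log_atTop.comp tN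
  have t2 : Tendsto (fun N : ℕ => c * Real.log (Real.log (N : ℝ))) atTop atTop :=
    (Real.tendsto_log_atTop.comp t1).const_mul_atTop hc
  refine tendsto_atTop_mono' _ ?_ t2
  filter_upwards [h, tN.eventually Pool.Agent.H312R2.RG.C3.ff_lower, t1.eventually_gt_atTop 0]
    with N h1 h2 h3
  rw [le_div_iff₀ h3]
  calc c * Real.log (Real.log (N : ℝ)) * Real.log N = c * (Real.log N * Real.log (Real.log N)) := by ring
    _ ≤ c * ff N := mul_le_mul_of_nonneg_left h2 hc.le
    _ ≤ _ := h1

end Pool.Agent.Q127.Basis
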